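import Mathlib
import Pool.Agent.W732.Cor.All
import Pool.Agent.H788R3.Cor2.Conc

/-!
The domains `|z|² + ∑ exp (2 u_j(z)) |y_j|² < 1`, `u_j` with supports, satisfy the hypotheses of
slice localisation.
-/

set_option autoImplicit false

open Metric Set Filter Topology Complex

namespace Pool.Agent.V1186.Cor

open Pool.Agent.W732.Cor Pool.Agent.H788R3.Cor2 Pool.Agent.W597.Cor.Ball

variable {n : ℕ}

/-- the domain -/
def DU (n : ℕ) (u : Fin n → ℂ → ℝ) : Set (ℂ × (Fin n → ℂ)) :=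
  {q | ‖q.1‖ ^ 2 + ∑ j, Real.exp (2 * u j q.1) * ‖q.2 j‖ ^ 2 < 1}

/-- the retractions -/
noncomputable def LU (A : Fin n → ℂ → ℂ → ℂ) (c : ℂ) (q : ℂ × (Fin n → ℂ)) : Fin n → ℂ :=
  fun j => ((1 - ‖c‖ ^ 2 : ℝ) : ℂ) / (1 - starRingEnd ℂ c * q.1) * A j c q.1 * q.2 j

/-- supports -/
structure Supp (u : Fin n → ℂ → ℝ) (A : Fin n → ℂ → ℂ → ℂ) : Prop where
  cont : ∀ j, ContinuousOn (u j) (ball (0 : ℂ) 1)
  diff : ∀ j, ∀ c ∈ ball (0 : ℂ) 1, DifferentiableOn ℂ (A j c) (ball 0 1)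
  one : ∀ j, ∀ c ∈ ball (0 : ℂ) 1, A j c c = 1
  le : ∀ j, ∀ c ∈ ball (0 : ℂ) 1, ∀ z ∈ ball (0 : ℂ) 1, ‖A j c z‖ ≤ Real.exp (u j z - u j c)
  joint : ∀ j, ContinuousOn (fun q : ℂ × ℂ => A j q.1 q.2) (ball 0 1 ×ˢ ball 0 1)

theorem sum_nonneg' (u : Fin n → ℂ → ℝ) (z : ℂ) (y : Fin n → ℂ) :
    0 ≤ ∑ j, Real.exp (2 * u j z) * ‖y j‖ ^ 2 := Finset.sum_nonneg fun j _ => by positivity

theorem DU_sub {u : Fin n → ℂ → ℝ} {q : ℂ × (Fin n → ℂ)} (hq : q ∈ DU n u) : ‖q.1‖ < 1 := by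
  have h1 : ‖q.1‖ ^ 2 + ∑ j, Real.exp (2 * u j q.1) * ‖q.2 j‖ ^ 2 < 1 := hq
  have h2 := sum_nonneg' u q.1 q.2
  nlinarith [norm_nonneg q.1]

theorem DU_dec {u : Fin n → ℂ → ℝ} {A : Fin n → ℂ → ℂ → ℂ} (h : Supp u A) {c : ℂ} (hc : ‖c‖ < 1)
    {q : ℂ × (Fin n → ℂ)} (hq : q ∈ DU n u) {t : ℂ} (ht : ‖t‖ * dd c q.1 ≤ 1) :
    (c, t • LU A c q) ∈ DU n u := by
  have hz := DU_sub hq
  have hcb : c ∈ ball (0 : ℂ) 1 := mem_ball_zero_iff.2 hc
  have hzb : q.1 ∈ ball (0 : ℂ) 1 := mem_ball_zero_iff.2 hz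
  have hq' : ‖q.1‖ ^ 2 + ∑ j, Real.exp (2 * u j q.1) * ‖q.2 j‖ ^ 2 < 1 := hq
  obtain ⟨S, hS⟩ : ∃ S : ℝ, S = ∑ j, Real.exp (2 * u j q.1) * ‖q.2 j‖ ^ 2 := ⟨_, rfl⟩
  have hS0 : 0 ≤ S := by rw [hS]; exact sum_nonneg' u q.1 q.2
  rw [← hS] at hq'
  set N := ‖1 - starRingEnd ℂ c * q.1‖ with hN
  have hN0 : 0 < N := norm_pos_iff.2 (den_ne hc hz)
  set a := 1 - ‖c‖ ^ 2 with ha
  have ha0 : 0 < a := by
    rw [ha]; nlinarith [norm_nonneg c]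
  set b := 1 - ‖q.1‖ ^ 2 with hb
  have hyb : S < b := by rw [hb]; linarith
  have hb0 : 0 < b := lt_of_le_of_lt hS0 hyb
  show ‖c‖ ^ 2 + ∑ j, Real.exp (2 * u j c) * ‖(t • LU A c q) j‖ ^ 2 < 1
  have h1 : ∑ j, Real.exp (2 * u j c) * ‖(t • LU A c q) j‖ ^ 2 ≤
      ‖t‖ ^ 2 * (a ^ 2 / N ^ 2) * S := by
    rw [hS, Finset.mul_sum]
    refine Finset.sum_le_sum fun j _ => ?_
    have h2 : ‖(t • LU A c q) j‖ ^ 2 = ‖t‖ ^ 2 * (a ^ 2 / N ^ 2) * (‖A j c q.1‖ ^ 2 * ‖q.2 j‖ ^ 2) := by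
      show ‖t * LU A c q j‖ ^ 2 = _
      unfold LU
      rw [norm_mul, norm_mul, norm_mul, norm_div, Complex.norm_real, Real.norm_eq_abs, ← ha,
        abs_of_pos ha0, ← hN]
      ring
    have h3 : ‖A j c q.1‖ ^ 2 ≤ Real.exp (2 * u j q.1) / Real.exp (2 * u j c) := by
      have h4 := pow_le_pow_left₀ (norm_nonneg _) (h.le j c hcb q.1 hzb) 2
      refine h4.trans (le_of_eq ?_)
      rw [← Real.exp_nat_mul, ← Real.exp_sub]
      congr 1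
      push_cast
      ring
    have h5 : Real.exp (2 * u j c) * ‖A j c q.1‖ ^ 2 ≤ Real.exp (2 * u j q.1) := by
      rw [le_div_iff₀ (Real.exp_pos _)] at h3
      linarith
    rw [h2]
    have h6 : 0 ≤ ‖t‖ ^ 2 * (a ^ 2 / N ^ 2) * ‖q.2 j‖ ^ 2 := by positivity
    calc Real.exp (2 * u j c) * (‖t‖ ^ 2 * (a ^ 2 / N ^ 2) * (‖A j c q.1‖ ^ 2 * ‖q.2 j‖ ^ 2))
        = (‖t‖ ^ 2 * (a ^ 2 / N ^ 2) * ‖q.2 j‖ ^ 2) * (Real.exp (2 * u j c) * ‖A j c q.1‖ ^ 2) := by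
          ring
      _ ≤ (‖t‖ ^ 2 * (a ^ 2 / N ^ 2) * ‖q.2 j‖ ^ 2) * Real.exp (2 * u j q.1) :=
          mul_le_mul_of_nonneg_left h5 h6
      _ = _ := by ring
  refine lt_of_le_of_lt (add_le_add_right h1 _) ?_
  have h2 : ‖t‖ ^ 2 * (a * b) ≤ N ^ 2 := by
    unfold dd at ht
    rw [← mul_div_assoc, div_le_one hN0] at ht
    have h3 := pow_le_pow_left₀ (by positivity) ht 2
    rw [mul_pow, Real.sq_sqrt (by positivity)] at h3
    exact h3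
  by_cases ht0 : t = 0
  · rw [ht0, norm_zero]
    have : ‖c‖ ^ 2 < 1 := by rw [ha] at ha0; linarith
    simpa using this
  · have ht1 : 0 < ‖t‖ ^ 2 := by
      have := norm_pos_iff.2 ht0
      positivity
    have h4 : ‖t‖ ^ 2 * (a ^ 2 / N ^ 2) * S < ‖t‖ ^ 2 * (a ^ 2 / N ^ 2) * b :=
      mul_lt_mul_of_pos_left hyb (by positivity)
    have h5 : ‖t‖ ^ 2 * (a ^ 2 / N ^ 2) * b = a * ((‖t‖ ^ 2 * (a * b)) / N ^ 2) := by ring
    have h6 : (‖t‖ ^ 2 * (a * b)) / N ^ 2 ≤ 1 := by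
      rw [div_le_one (by positivity)]; exact h2
    have h7 : a * ((‖t‖ ^ 2 * (a * b)) / N ^ 2) ≤ a := mul_le_of_le_one_right ha0.le h6
    have h8 : ‖c‖ ^ 2 = 1 - a := by rw [ha]; ring
    linarith

theorem tubeU {u : Fin n → ℂ → ℝ} {A : Fin n → ℂ → ℂ → ℂ} (h : Supp u A) :
    TubeD (DU n u) (LU A) := by
  refine ⟨⟨?_, ?_, ?_, ?_, ?_, ?_⟩, ?_, ?_⟩
  · -- open
    have h1 : IsOpen ((ball (0 : ℂ) 1) ×ˢ (univ : Set (Fin n → ℂ))) := isOpen_ball.prod isOpen_univ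
    have h2 : ContinuousOn (fun q : ℂ × (Fin n → ℂ) =>
        ‖q.1‖ ^ 2 + ∑ j, Real.exp (2 * u j q.1) * ‖q.2 j‖ ^ 2)
        ((ball (0 : ℂ) 1) ×ˢ (univ : Set (Fin n → ℂ))) := by
      refine ContinuousOn.add (by fun_prop) ?_
      refine continuousOn_finsetSum _ fun j _ => ?_
      refine ContinuousOn.mul ?_ (by fun_prop)
      refine Real.continuous_exp.comp_continuousOn ?_
      refine continuousOn_const.mul ?_
      exact (h.cont j).comp continuousOn_fst fun q hq => hq.1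
    have h3 := h2.isOpen_inter_preimage h1 (isOpen_Iio (a := (1 : ℝ)))
    convert h3 using 1
    ext q
    constructor
    · intro hq
      exact ⟨⟨mem_ball_zero_iff.2 (DU_sub hq), mem_univ _⟩, hq⟩
    · intro hq
      exact hq.2
  · intro q hq
    rw [mem_ball_zero_iff]
    exact DU_sub hq
  · intro c hc q hq
    rw [mem_ball_zero_iff] at hc
    have h1 := DU_dec h hc hq (t := 1) (by
      rw [norm_one, one_mul]; exact dd_le hc (DU_sub hq))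
    rwa [one_smul] at h1
  · intro c y hy
    have hc := DU_sub hy
    have hc' : ‖c‖ < 1 := hc
    funext j
    have h1 : ((1 - ‖c‖ ^ 2 : ℝ) : ℂ) = 1 - starRingEnd ℂ c * c := by
      rw [mul_comm, Complex.mul_conj, Complex.normSq_eq_norm_sq]
      push_cast
      ring
    show ((1 - ‖c‖ ^ 2 : ℝ) : ℂ) / (1 - starRingEnd ℂ c * c) * A j c c * y j = y j
    rw [h1, div_self (den_ne hc hc), h.one j c (mem_ball_zero_iff.2 hc'), one_mul, one_mul]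
  · intro c hc q hq
    have hc' := mem_ball_zero_iff.1 hc
    have hq1 : q.1 ∈ ball (0 : ℂ) 1 := mem_ball_zero_iff.2 (DU_sub hq)
    have h0 := den_ne hc' (DU_sub hq)
    refine differentiableAt_pi.2 fun j => ?_
    unfold LU
    have h2 : DifferentiableAt ℂ (fun w : ℂ => ((1 - ‖c‖ ^ 2 : ℝ) : ℂ) /
        (1 - starRingEnd ℂ c * w)) q.1 := by
      apply DifferentiableAt.fun_div
      · fun_prop
      · fun_prop
      · exact h0
    have h1 : DifferentiableAt ℂ (fun q : ℂ × (Fin n → ℂ) => ((1 - ‖c‖ ^ 2 : ℝ) : ℂ) /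
        (1 - starRingEnd ℂ c * q.1)) q :=
      DifferentiableAt.comp (f := fun p : ℂ × (Fin n → ℂ) => p.1) q h2 differentiableAt_fst
    have h3 : DifferentiableAt ℂ (fun q : ℂ × (Fin n → ℂ) => A j c q.1) q :=
      DifferentiableAt.comp (f := fun p : ℂ × (Fin n → ℂ) => p.1) q
        ((h.diff j c hc).differentiableAt (isOpen_ball.mem_nhds hq1)) differentiableAt_fst
    have h4 : DifferentiableAt ℂ (fun q : ℂ × (Fin n → ℂ) => q.2 j) q := by fun_prop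
    exact (h1.mul h3).mul h4
  · intro y
    refine continuousOn_pi.2 fun j => ?_
    unfold LU
    have h1 : ContinuousOn (fun q : ℂ × ℂ => ((1 - ‖q.1‖ ^ 2 : ℝ) : ℂ) /
        (1 - starRingEnd ℂ q.1 * q.2)) {q | q.1 ∈ ball (0 : ℂ) 1 ∧ (q.2, y) ∈ DU n u} := by
      apply ContinuousOn.div
      · apply Continuous.continuousOn
        fun_prop
      · apply Continuous.continuousOn
        have : Continuous (fun z : ℂ => starRingEnd ℂ z) := Complex.continuous_conj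
        fun_prop
      · rintro ⟨c, z⟩ ⟨h1, h2⟩
        rw [mem_ball_zero_iff] at h1
        exact den_ne h1 (DU_sub h2)
    have h2 : ContinuousOn (fun q : ℂ × ℂ => A j q.1 q.2)
        {q | q.1 ∈ ball (0 : ℂ) 1 ∧ (q.2, y) ∈ DU n u} :=
      (h.joint j).mono fun q hq => ⟨hq.1, mem_ball_zero_iff.2 (DU_sub hq.2)⟩
    exact (h1.mul h2).mul continuousOn_const
  · intro c hc
    rw [mem_ball_zero_iff] at hc
    show ‖c‖ ^ 2 + ∑ j, Real.exp (2 * u j c) * ‖(0 : Fin n → ℂ) j‖ ^ 2 < 1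
    simp only [Pi.zero_apply, norm_zero, ne_eq, OfNat.ofNat_ne_zero, not_false_eq_true, zero_pow,
      mul_zero, Finset.sum_const_zero, add_zero]
    nlinarith [norm_nonneg c]
  · intro c hc q hq t ht
    rw [mem_ball_zero_iff] at hc
    exact DU_dec h hc hq ht

theorem supp_of_convex {u : Fin n → ℂ → ℝ} (hu : ∀ j, ConvexOn ℝ (ball (0 : ℂ) 1) (u j))
    (hd : ∀ j, ContDiffOn ℝ 1 (u j) (ball (0 : ℂ) 1)) : ∃ A : Fin n → ℂ → ℂ → ℂ, Supp u A := by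
  choose A h1 h2 h3 h4 using fun j => Pool.Agent.H788R3.Cor2.conv_supp isOpen_ball (hu j) (hd j)
  exact ⟨A, ⟨fun j => (hd j).continuousOn, h1, h2, h3, h4⟩⟩

end Pool.Agent.V1186.Cor
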